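import Mathlib
import Pool.Agent.H921GH.Main

/-!
# The Gromov-Hausdorff distance between the unit disc and the unit circle

Both carry the Euclidean metric of the plane.  The lower bound is a winding number argument, the
upper bound an explicit correspondence (`Pool.Agent.H921GH`).
-/

set_option autoImplicit false

namespace Pool.Agent.Results.MP_431f4e_gt.DiscCircle

/-- The unit circle of the Euclidean plane is not empty (it contains the point `(1, 0)`). -/
instance : Nonempty (Metric.sphere (0 : EuclideanSpace ℝ (Fin 2)) 1) :=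
  ⟨⟨EuclideanSpace.single 0 1, by simp⟩⟩

/-- The Gromov-Hausdorff distance between the closed unit disc `B^2` and the unit circle `S^1`,
both with the Euclidean metric, is `1 - s`, where `s = 0.3478...` is the unique positive root of
`4 s^3 + 4 s^2 + s = 1`. -/
theorem result :
    ∃ s : ℝ, (0.3478 < s ∧ s < 0.34782) ∧ 4 * s ^ 3 + 4 * s ^ 2 + s = 1 ∧
      (∀ t : ℝ, 0 < t → 4 * t ^ 3 + 4 * t ^ 2 + t = 1 → t = s) ∧
      GromovHausdorff.ghDist (Metric.closedBall (0 : EuclideanSpace ℝ (Fin 2)) 1)
        (Metric.sphere (0 : EuclideanSpace ℝ (Fin 2)) 1) = 1 - s :=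
  ⟨H921GH.s, ⟨H921GH.s_gt, H921GH.s_lt⟩, H921GH.s_eq, fun _ ht h => H921GH.root_unique ht h,
    H921GH.ghDist_plane⟩

end Pool.Agent.Results.MP_431f4e_gt.DiscCircle
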